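import Pool.Agent.MTF.StmtsA

/-! MTF, module COR. -/

set_option autoImplicit false

namespace Pool.Agent.MTF.H74

open Matrix

/-- COR -/
theorem cor (hDex : DexStmt) (hTrd : TrdStmt) (hFld : FldStmt) : CorStmt := by
  intro K _ _ k d _ _ lev w m c U Yh x hU hY hAlg hRel Q G hQ hG1 hG2 N Y h hYk hH hbr
  -- the derivations
  have h1 : ∀ j, ∃ D : Derivation k K K, ∀ p : d × d, D (Yh p.1 p.2) = (Yh * x j) p.1 p.2 := fun j =>
    hDex K k (d × d) (fun p => Yh p.1 p.2) (fun p => (Yh * x j) p.1 p.2) (hRel j)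
  choose D hD using h1
  obtain ⟨l, hl, hkill⟩ := hTrd K k m c D
  set DD : Derivation k K K := ∑ j, l j • D j with hDD
  have hDDa : ∀ z : K, DD z = ∑ j, l j * D j z := by
    intro z
    have e1 := congrFun (map_sum (Derivation.coeFnAddMonoidHom (R := k) (A := K) (M := K))
      (fun j => l j • D j) Finset.univ) z
    rw [Finset.sum_apply] at e1
    refine e1.trans (Finset.sum_congr rfl fun j _ => ?_)
    change (l j • D j) z = _
    rw [Derivation.coe_smul, Pi.smul_apply, smul_eq_mul]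
  have hDU : ∀ i j, DD (U i j) = 0 := fun i j => by rw [hDDa]; exact hkill _ (hAlg i j)
  set X : Matrix d d K := ∑ j, l j • x j with hX
  have hDY : ∀ a b, DD (Yh a b) = (Yh * X) a b := by
    intro a b
    rw [hDDa, hX, Finset.mul_sum, Matrix.sum_apply]
    refine Finset.sum_congr rfl fun j _ => ?_
    rw [hD j (a, b), Matrix.mul_smul, Matrix.smul_apply, smul_eq_mul]
  have hQd : IsUnit Q.det := by
    rw [hQ, det_mul, det_transpose]
    exact hU.mul hY
  have hQD : Q.map DD = (U * Xᵀ * U⁻¹) * Q := by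
    have e1 : (U * Xᵀ * U⁻¹) * Q = U * (Yh * X)ᵀ := by
      rw [hQ, transpose_mul, Matrix.mul_assoc, Matrix.mul_assoc, ← Matrix.mul_assoc U⁻¹ U,
        nonsing_inv_mul U hU, Matrix.one_mul]
    rw [e1, hQ]
    ext i a
    rw [map_apply, Matrix.mul_apply, Matrix.mul_apply, map_sum]
    refine Finset.sum_congr rfl fun b _ => ?_
    rw [Derivation.leibniz, hDU, smul_zero, add_zero, transpose_apply, transpose_apply, hDY,
      smul_eq_mul]
  obtain ⟨μ, C, hC, hZ⟩ := hFld K k d lev w DD Q (U * Xᵀ * U⁻¹) G hQd hQD hG1 hG2 N Y h hYk hH hbr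
  refine ⟨l, μ, C, hl, hC, ?_⟩
  rw [← hZ, hX, transpose_sum, Finset.mul_sum, Finset.sum_mul]
  refine Finset.sum_congr rfl fun j _ => ?_
  rw [transpose_smul, Matrix.mul_smul, Matrix.smul_mul]

end Pool.Agent.MTF.H74
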