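import Pool.Agent.Helper90_MTF.Lag3
import Pool.Agent.Helper32_MTF.Cdl

/-! MTF, module CRD: the trichotomy. -/

set_option autoImplicit false

namespace Pool.Agent.MTF.H74

open Matrix Pool.Agent.MTF

variable {d : Type} [Fintype d] [DecidableEq d] {Ψ : Matrix d d ℂ} {w : ℕ}
  {V : ℕ → Submodule ℂ (d → ℂ)} {g : Submodule ℂ (Matrix d d ℂ)}

/-- the form -/
noncomputable def bb (Ψ : Matrix d d ℂ) : LinearMap.BilinForm ℂ (d → ℂ) := Matrix.toBilin' Ψ

theorem bb_apply (x y : d → ℂ) : bb Ψ x y = x ⬝ᵥ (Ψ *ᵥ y) := Matrix.toBilin'_apply' Ψ x y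

theorem bb_swap (hs : Ψᵀ = -Ψ) (x y : d → ℂ) : bb Ψ x y = -bb Ψ y x := by
  rw [bb_apply, bb_apply, dotProduct_mulVec, ← mulVec_transpose, hs, neg_mulVec,
    neg_dotProduct, dotProduct_comm]

theorem bb_refl (hs : Ψᵀ = -Ψ) : (bb Ψ).IsRefl := by
  intro x y h
  rw [bb_swap hs, neg_eq_zero]
  exact h

theorem bb_inv (hL : HL w Ψ V g) {X : Matrix d d ℂ} (hX : X ∈ g) (x y : d → ℂ) :
    bb Ψ (X *ᵥ x) y = -bb Ψ x (X *ᵥ y) := by
  have h1 : Xᵀ * Ψ + Ψ * X = 0 := hL.le hX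
  have h2 : Xᵀ * Ψ = -(Ψ * X) := eq_neg_of_add_eq_zero_left h1
  rw [bb_apply, bb_apply, dotProduct_mulVec, ← vecMul_transpose, vecMul_vecMul,
    ← dotProduct_mulVec, h2, neg_mulVec, dotProduct_neg, ← mulVec_mulVec]

/-- the orthogonal of a stable subspace is stable -/
theorem stab_orth (hL : HL w Ψ V g) {U : Submodule ℂ (d → ℂ)} (hU : Stab g U) :
    Stab g ((bb Ψ).orthogonal U) := by
  intro X hX x hx
  rw [LinearMap.BilinForm.mem_orthogonal_iff] at hx ⊢
  intro u hu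
  have h1 := hx (X *ᵥ u) (hU X hX u hu)
  rw [bb_inv hL hX, neg_eq_zero] at h1
  exact h1

omit [DecidableEq d] in
theorem stab_inf {U U' : Submodule ℂ (d → ℂ)} (hU : Stab g U) (hU' : Stab g U') :
    Stab g (U ⊓ U') := fun X hX x hx => ⟨hU X hX x hx.1, hU' X hX x hx.2⟩

omit [DecidableEq d] in
theorem stab_sup {U U' : Submodule ℂ (d → ℂ)} (hU : Stab g U) (hU' : Stab g U') :
    Stab g (U ⊔ U') := by
  intro X hX x hx
  obtain ⟨a, ha, b, hb, rfl⟩ := Submodule.mem_sup.1 hx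
  rw [mulVec_add]
  exact Submodule.add_mem_sup (hU X hX a ha) (hU' X hX b hb)

/-- complex conjugate of a subspace -/
def cjU (U : Submodule ℂ (d → ℂ)) : Submodule ℂ (d → ℂ) where
  carrier := {x | star x ∈ U}
  zero_mem' := by
    change star (0 : d → ℂ) ∈ U
    rw [star_zero]; exact U.zero_mem
  add_mem' := by
    intro a b ha hb
    change star (a + b) ∈ U
    rw [star_add]; exact U.add_mem ha hb
  smul_mem' := by
    intro c a ha
    change star (c • a) ∈ U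
    rw [star_smul]; exact U.smul_mem _ ha

omit [DecidableEq d] in
theorem mem_cjU {U : Submodule ℂ (d → ℂ)} {x : d → ℂ} : x ∈ cjU U ↔ star x ∈ U := Iff.rfl

omit [DecidableEq d] in
theorem star_mulVec' (X : Matrix d d ℂ) (x : d → ℂ) : star (X *ᵥ x) = X.map star *ᵥ star x := by
  funext i
  simp [mulVec, dotProduct, star_sum]

theorem stab_cj (hL : HL w Ψ V g) {U : Submodule ℂ (d → ℂ)} (hU : Stab g U) : Stab g (cjU U) := by
  intro X hX x hx
  rw [mem_cjU, star_mulVec']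
  exact hU _ (hL.cj X hX) _ hx

/-- homogeneous elements of a stable subspace -/
theorem exists_hom (hL : HL w Ψ V g) {U : Submodule ℂ (d → ℂ)} (hU : Stab g U) (h0 : U ≠ ⊥) :
    ∃ p, ∃ x ∈ U, x ∈ V p ∧ x ≠ 0 := by
  obtain ⟨u, hu, hu0⟩ := U.ne_bot_iff.1 h0
  obtain ⟨f, hf, hfu⟩ := H90.graded hL hU u hu
  by_contra hc
  push Not at hc
  apply hu0
  rw [← hfu]
  exact Finset.sum_eq_zero fun p _ => hc p _ (hf p).1 (hf p).2

theorem pos_ne' (hL : HL w Ψ V g) {p : ℕ} {x : d → ℂ} (hx : x ∈ V p) (h0 : x ≠ 0) :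
    bb Ψ x (star x) ≠ 0 := by
  have := H90.pos_ne hL hx h0
  rw [H90.psi_apply] at this
  rw [bb_apply]
  exact this

theorem star_bb (hL : HL w Ψ V g) (x y : d → ℂ) : star (bb Ψ x y) = bb Ψ (star x) (star y) := by
  have hΨ : Ψ.map star = Ψ := by
    ext i j
    exact hL.real i j
  rw [bb_apply, bb_apply]
  have h1 : star (Ψ *ᵥ y) = Ψ *ᵥ star y := by
    rw [star_mulVec', hΨ]
  rw [← h1, Matrix.star_dotProduct_star, dotProduct_comm]

/-- orthogonal decomposition of a stable subspace which meets its orthogonal in zero -/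
theorem split_of (hL : HL w Ψ V g) {U : Submodule ℂ (d → ℂ)} (hU : Stab g U) (h0 : U ≠ ⊥)
    (h1 : U ≠ ⊤) (h2 : U ⊓ (bb Ψ).orthogonal U = ⊥) :
    ∃ U U', Stab g U ∧ Stab g U' ∧ U ≠ ⊥ ∧ U' ≠ ⊥ ∧ IsCompl U U' ∧
      ∀ x ∈ U, ∀ y ∈ U', x ⬝ᵥ (Ψ *ᵥ y) = 0 := by
  have hc : IsCompl U ((bb Ψ).orthogonal U) :=
    (LinearMap.BilinForm.isCompl_orthogonal_iff_disjoint (bb_refl hL.skew)).2
      (disjoint_iff.2 h2)
  refine ⟨U, (bb Ψ).orthogonal U, hU, stab_orth hL hU, h0, ?_, hc, ?_⟩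
  · intro h3
    apply h1
    have := hc.sup_eq_top
    rw [h3, sup_bot_eq] at this
    exact this
  · intro x hx y hy
    rw [← bb_apply]
    exact hy x hx

theorem crd : CrdStmt := by
  intro d _ _ w Ψ V g hL
  by_cases hirr : ∀ U, Stab g U → U = ⊥ ∨ U = ⊤
  · exact Or.inl hirr
  right
  push Not at hirr
  obtain ⟨U0, hU0, hb0, ht0⟩ := hirr
  -- a minimal stable subspace
  obtain ⟨U, ⟨hUs, hUb, hUle⟩, hmin⟩ :=
    WellFounded.has_min (wellFounded_lt (α := Submodule ℂ (d → ℂ)))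
      {U | Stab g U ∧ U ≠ ⊥ ∧ U ≤ U0} ⟨U0, hU0, hb0, le_refl _⟩
  have hmin' : ∀ W, Stab g W → W ≤ U → W = ⊥ ∨ W = U := by
    intro W hW hWU
    by_contra hc
    push Not at hc
    exact hmin W ⟨hW, hc.1, hWU.trans hUle⟩ (lt_of_le_of_ne hWU hc.2)
  have hUt : U ≠ ⊤ := fun h => ht0 (top_le_iff.1 (h ▸ hUle))
  rcases hmin' _ (stab_inf hUs (stab_orth hL hUs)) inf_le_left with h1 | h1
  · exact Or.inl (split_of hL hUs hUb hUt h1)
  have hiso : ∀ x ∈ U, ∀ y ∈ U, bb Ψ x y = 0 := by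
    intro x hx y hy
    rw [← h1] at hy
    exact hy.2 x hx
  have hcs : Stab g (cjU U) := stab_cj hL hUs
  have hisoc : ∀ x ∈ cjU U, ∀ y ∈ cjU U, bb Ψ x y = 0 := by
    intro x hx y hy
    have := hiso _ hx _ hy
    rw [← star_bb hL] at this
    exact star_eq_zero.1 this
  obtain ⟨p, x0, hx0, hx0p, hx00⟩ := exists_hom hL hUs hUb
  have hne := pos_ne' hL hx0p hx00
  have hx0c : star x0 ∈ cjU U := by rw [mem_cjU, star_star]; exact hx0
  -- `U` meets the orthogonal of its conjugate in zero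
  have hA : U ⊓ (bb Ψ).orthogonal (cjU U) = ⊥ := by
    rcases hmin' _ (stab_inf hUs (stab_orth hL hcs)) inf_le_left with h2 | h2
    · exact h2
    · exfalso
      have h3 : x0 ∈ U ⊓ (bb Ψ).orthogonal (cjU U) := by rw [h2]; exact hx0
      have h4 : bb Ψ (star x0) x0 = 0 := h3.2 (star x0) hx0c
      apply hne
      rw [bb_swap hL.skew, h4, neg_zero]
  have hA' : ∀ x ∈ U, (∀ y ∈ cjU U, bb Ψ y x = 0) → x = 0 := by
    intro x hx h
    have : x ∈ U ⊓ (bb Ψ).orthogonal (cjU U) := ⟨hx, h⟩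
    rw [hA] at this
    exact (Submodule.mem_bot ℂ).1 this
  have hB' : ∀ x ∈ cjU U, (∀ y ∈ U, bb Ψ y x = 0) → x = 0 := by
    intro x hx h
    have h2 : star x = 0 := by
      apply hA' _ hx
      intro y hy
      have := h (star y) hy
      have h3 := star_bb hL (star y) x
      rw [this, star_zero, star_star] at h3
      exact h3.symm
    exact star_eq_zero.1 h2
  have hdisj : Disjoint U (cjU U) := by
    rw [Submodule.disjoint_def]
    intro x hx hxc
    exact hA' x hx fun y hy => hisoc y hy x hxc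
  set W := U ⊔ cjU U with hW
  have hWs : Stab g W := stab_sup hUs hcs
  have hWb : W ≠ ⊥ := fun h => hUb (le_bot_iff.1 (h ▸ le_sup_left))
  have hWo : W ⊓ (bb Ψ).orthogonal W = ⊥ := by
    rw [eq_bot_iff]
    rintro z ⟨hz, hzo⟩
    obtain ⟨a, ha, b, hb, rfl⟩ := Submodule.mem_sup.1 hz
    have ha0 : a = 0 := by
      apply hA' a ha
      intro y hy
      have h2 : bb Ψ y (a + b) = 0 := hzo y (le_sup_right (a := U) hy)
      rw [map_add, hisoc y hy b hb, add_zero] at h2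
      exact h2
    have hb0 : b = 0 := by
      apply hB' b hb
      intro y hy
      have h2 : bb Ψ y (a + b) = 0 := hzo y (le_sup_left (b := cjU U) hy)
      rw [map_add, hiso y hy a ha, zero_add] at h2
      exact h2
    rw [ha0, hb0, add_zero]
    exact Submodule.zero_mem _
  by_cases hWt : W = ⊤
  · right
    refine ⟨U, cjU U, hUs, hcs, hUb, ⟨hdisj, codisjoint_iff.2 hWt⟩, ?_, ?_⟩
    · intro x hx y hy
      rw [← bb_apply]; exact hiso x hx y hy
    · intro x hx y hy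
      rw [← bb_apply]; exact hisoc x hx y hy
  · exact Or.inl (split_of hL hWs hWb hWt hWo)

end Pool.Agent.MTF.H74
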