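import Pool.Agent.Helper74_MTF.Ger1
import Pool.Agent.MTF.StmtsA

/-! MTF, module GER, part 3: matrices over the germ field, the core statement for sequences. -/

set_option autoImplicit false

namespace Pool.Agent.MTF.H74

open Filter Matrix IntermediateField

variable {φ : Ultrafilter ℕ} {d : Type}

/-- the germ of a sequence of matrices -/
noncomputable def mg (φ : Ultrafilter ℕ) (A : ℕ → Matrix d d ℂ) : Matrix d d (GK φ) :=
  fun i j => pg φ (fun n => A n i j)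

theorem mg_apply (A : ℕ → Matrix d d ℂ) (i j : d) : mg φ A i j = pg φ (fun n => A n i j) := rfl

theorem mg_surj (M : Matrix d d (GK φ)) : ∃ A : ℕ → Matrix d d ℂ, mg φ A = M := by
  choose f hf using fun i j => pg_surj (M i j)
  exact ⟨fun n i j => f i j n, by ext i j; exact hf i j⟩

theorem mg_transpose (A : ℕ → Matrix d d ℂ) : mg φ (fun n => (A n)ᵀ) = (mg φ A)ᵀ := rfl

theorem mg_smul (f : ℕ → ℂ) (A : ℕ → Matrix d d ℂ) :
    mg φ (fun n => f n • A n) = pg φ f • mg φ A := by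
  ext i j
  rw [Matrix.smul_apply, smul_eq_mul, mg_apply, mg_apply, ← map_mul]
  rfl

theorem mg_add (A B : ℕ → Matrix d d ℂ) : mg φ (fun n => A n + B n) = mg φ A + mg φ B := by
  ext i j
  rw [Matrix.add_apply, mg_apply, mg_apply, mg_apply, ← map_add]
  rfl

theorem mg_sub (A B : ℕ → Matrix d d ℂ) : mg φ (fun n => A n - B n) = mg φ A - mg φ B := by
  ext i j
  rw [Matrix.sub_apply, mg_apply, mg_apply, mg_apply, ← map_sub]
  rfl

theorem mg_sum {ι : Type} (s : Finset ι) (A : ι → ℕ → Matrix d d ℂ) :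
    mg φ (fun n => ∑ i ∈ s, A i n) = ∑ i ∈ s, mg φ (A i) := by
  ext a b
  rw [Matrix.sum_apply, mg_apply]
  have e : (fun n => (∑ i ∈ s, A i n) a b) = ∑ i ∈ s, fun n => A i n a b := by
    funext n
    rw [Finset.sum_apply, Matrix.sum_apply]
  rw [e, map_sum]
  rfl

variable [Fintype d]

theorem mg_eq {A B : ℕ → Matrix d d ℂ} : mg φ A = mg φ B ↔ ∀ᶠ n in (φ : Filter ℕ), A n = B n := by
  constructor
  · intro h
    have h1 : ∀ i j, ∀ᶠ n in (φ : Filter ℕ), A n i j = B n i j := fun i j =>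
      pg_eq.1 (congrFun (congrFun h i) j)
    have h2 : ∀ᶠ n in (φ : Filter ℕ), ∀ i j, A n i j = B n i j :=
      eventually_all.2 fun i => eventually_all.2 fun j => h1 i j
    filter_upwards [h2] with n hn
    ext i j
    exact hn i j
  · intro h
    ext i j
    refine pg_eq.2 ?_
    filter_upwards [h] with n hn
    rw [hn]

theorem mg_mul (A B : ℕ → Matrix d d ℂ) : mg φ (fun n => A n * B n) = mg φ A * mg φ B := by
  ext i j
  rw [Matrix.mul_apply, mg_apply]
  have e : (fun n => (A n * B n) i j) = ∑ l, (fun n => A n i l) * (fun n => B n l j) := by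
    funext n
    rw [Finset.sum_apply, Matrix.mul_apply]
    rfl
  rw [e, map_sum]
  exact Finset.sum_congr rfl fun l _ => map_mul _ _ _

variable [DecidableEq d]

omit [Fintype d] in
theorem mg_one : mg φ (fun _ => (1 : Matrix d d ℂ)) = 1 := by
  ext i j
  by_cases h : i = j
  · subst h
    rw [Matrix.one_apply_eq]
    change pg φ (fun _ : ℕ => (1 : Matrix d d ℂ) i i) = 1
    simp only [Matrix.one_apply_eq]
    exact map_one (pg φ)
  · rw [Matrix.one_apply_ne h]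
    change pg φ (fun _ : ℕ => (1 : Matrix d d ℂ) i j) = 0
    simp only [Matrix.one_apply_ne h]
    exact map_zero (pg φ)

theorem mg_inv {A : ℕ → Matrix d d ℂ} (h : ∀ᶠ n in (φ : Filter ℕ), IsUnit (A n).det) :
    mg φ A * mg φ (fun n => (A n)⁻¹) = 1 ∧ mg φ (fun n => (A n)⁻¹) * mg φ A = 1 := by
  constructor
  · rw [← mg_mul, ← mg_one, mg_eq]
    filter_upwards [h] with n hn
    exact mul_nonsing_inv _ hn
  · rw [← mg_mul, ← mg_one, mg_eq]
    filter_upwards [h] with n hn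
    exact nonsing_inv_mul _ hn

theorem mg_inv' {A : ℕ → Matrix d d ℂ} (h : ∀ᶠ n in (φ : Filter ℕ), IsUnit (A n).det) :
    mg φ (fun n => (A n)⁻¹) = (mg φ A)⁻¹ := (inv_eq_right_inv (mg_inv h).1).symm

theorem mg_unit {A : ℕ → Matrix d d ℂ} (h : ∀ᶠ n in (φ : Filter ℕ), IsUnit (A n).det) :
    IsUnit (mg φ A).det := by
  have h1 := congrArg det (mg_inv h).1
  rw [det_mul, det_one] at h1
  exact IsUnit.of_mul_eq_one _ h1

/-- the core of the argument, for sequences -/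
theorem ger_core (hCor : CorStmt) (lev : d → ℕ) (w m : ℕ) (c : Fin m → GK φ)
    (U Yh : ℕ → Matrix d d ℂ) (x : Fin (m + 1) → ℕ → Matrix d d ℂ)
    (hU : ∀ᶠ n in (φ : Filter ℕ), IsUnit (U n).det)
    (hY : ∀ᶠ n in (φ : Filter ℕ), IsUnit (Yh n).det)
    (hAlg : ∀ i j, IsAlgebraic (adjoin (kk φ) (Set.range c)) (pg φ (fun n => U n i j)))
    (hPer : ∀ j, ∀ e : ℕ, ∀ᶠ n in (φ : Filter ℕ), ∀ R : MvPolynomial (d × d) ℚ,
      R.totalDegree ≤ e → MvPolynomial.aeval (fun p : d × d => Yh n p.1 p.2) R = 0 →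
      ∑ p : d × d, MvPolynomial.aeval (fun p : d × d => Yh n p.1 p.2) (MvPolynomial.pderiv p R) *
        (Yh n * x j n) p.1 p.2 = 0)
    (Q G : ℕ → Matrix d d ℂ) (hQ : ∀ n, Q n = U n * (Yh n)ᵀ)
    (hG1 : ∀ᶠ n in (φ : Filter ℕ), ∀ b a, lev b < lev a → G n b a = 0)
    (hG2 : ∀ᶠ n in (φ : Filter ℕ), ∀ b a, lev b = lev a →
      G n b a = if b = a then (lev a : ℂ) - w / 2 else 0)
    (N : ℕ) (Y : ℕ → Fin N → Matrix d d ℚ) (h : ℕ → Fin N → ℂ)
    (hH : ∀ᶠ n in (φ : Filter ℕ), Q n * G n * (Q n)⁻¹ =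
      ∑ i, h n i • (Y n i).map (algebraMap ℚ ℂ))
    (hbr : ∀ᶠ n in (φ : Filter ℕ), ∀ i,
      (Q n * G n * (Q n)⁻¹) * (Y n i).map (algebraMap ℚ ℂ) -
        (Y n i).map (algebraMap ℚ ℂ) * (Q n * G n * (Q n)⁻¹) ∈
        Submodule.span ℂ (Set.range fun i => (Y n i).map (algebraMap ℚ ℂ))) :
    ∀ᶠ n in (φ : Filter ℕ), ∃ (l : Fin (m + 1) → ℂ) (μ : Fin N → ℂ) (C : Matrix d d ℂ), l ≠ 0 ∧
      (∀ b a, lev b < lev a → C b a = 0) ∧
      ∑ j, l j • (U n * (x j n)ᵀ * (U n)⁻¹) =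
        ∑ i, μ i • (Y n i).map (algebraMap ℚ ℂ) + Q n * C * (Q n)⁻¹ := by
  classical
  have hQd : ∀ᶠ n in (φ : Filter ℕ), IsUnit (Q n).det := by
    filter_upwards [hU, hY] with n h1 h2
    rw [hQ, det_mul, det_transpose]
    exact h1.mul h2
  -- coefficients of the brackets
  have hbr' : ∀ᶠ n in (φ : Filter ℕ), ∃ b : Fin N → Fin N → ℂ, ∀ i,
      (Q n * G n * (Q n)⁻¹) * (Y n i).map (algebraMap ℚ ℂ) -
        (Y n i).map (algebraMap ℚ ℂ) * (Q n * G n * (Q n)⁻¹) =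
        ∑ i', b i i' • (Y n i').map (algebraMap ℚ ℂ) := by
    filter_upwards [hbr] with n hn
    have h1 : ∀ i, ∃ b : Fin N → ℂ, ∑ i', b i' • (Y n i').map (algebraMap ℚ ℂ) =
        (Q n * G n * (Q n)⁻¹) * (Y n i).map (algebraMap ℚ ℂ) -
        (Y n i).map (algebraMap ℚ ℂ) * (Q n * G n * (Q n)⁻¹) := fun i =>
      (Submodule.mem_span_range_iff_exists_fun ℂ).1 (hn i)
    choose b hb using h1
    exact ⟨b, fun i => (hb i).symm⟩
  let bb : ℕ → Fin N → Fin N → ℂ := fun n =>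
    if hn : ∃ b : Fin N → Fin N → ℂ, ∀ i,
      (Q n * G n * (Q n)⁻¹) * (Y n i).map (algebraMap ℚ ℂ) -
        (Y n i).map (algebraMap ℚ ℂ) * (Q n * G n * (Q n)⁻¹) =
        ∑ i', b i i' • (Y n i').map (algebraMap ℚ ℂ) then hn.choose else 0
  have hbb : ∀ᶠ n in (φ : Filter ℕ), ∀ i,
      (Q n * G n * (Q n)⁻¹) * (Y n i).map (algebraMap ℚ ℂ) -
        (Y n i).map (algebraMap ℚ ℂ) * (Q n * G n * (Q n)⁻¹) =
        ∑ i', bb n i i' • (Y n i').map (algebraMap ℚ ℂ) := by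
    filter_upwards [hbr'] with n hn
    intro i
    have := hn.choose_spec i
    simp only [bb]
    rw [dif_pos hn]
    exact this
  set Ys : Fin N → Matrix d d (GK φ) := fun i => mg φ (fun n => (Y n i).map (algebraMap ℚ ℂ))
    with hYs
  have hHK : mg φ Q * mg φ G * (mg φ Q)⁻¹ = ∑ i, pg φ (fun n => h n i) • Ys i := by
    rw [← mg_inv' hQd, ← mg_mul, ← mg_mul]
    simp only [hYs]
    simp_rw [← mg_smul]
    rw [← mg_sum, mg_eq]
    exact hH
  have c1 : ∀ j, ∀ R : MvPolynomial (d × d) (kk φ),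
      MvPolynomial.aeval (fun p : d × d => mg φ Yh p.1 p.2) R = 0 →
      ∑ p : d × d, MvPolynomial.aeval (fun p : d × d => mg φ Yh p.1 p.2)
        (MvPolynomial.pderiv p R) * (mg φ Yh * mg φ (x j)) p.1 p.2 = 0 := by
    intro j R hR
    have e0 : (fun p : d × d => mg φ Yh p.1 p.2) =
        fun p : d × d => pg φ (fun n => Yh n p.1 p.2) := rfl
    have e1 : ∀ p : d × d, (mg φ Yh * mg φ (x j)) p.1 p.2 =
        pg φ (fun n => (Yh n * x j n) p.1 p.2) := fun p => by rw [← mg_mul]; rfl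
    rw [e0] at hR ⊢
    have h1 := pers (φ := φ) (σ := d × d) (y := fun n p => Yh n p.1 p.2)
      (v := fun n p => (Yh n * x j n) p.1 p.2) (hPer j)
    have h2 := h1 R hR
    rw [← h2]
    refine Finset.sum_congr rfl fun p _ => ?_
    rw [e1 p]
  have c2 : mg φ Q = mg φ U * (mg φ Yh)ᵀ := by
    rw [← mg_transpose, ← mg_mul, mg_eq]
    exact Eventually.of_forall hQ
  have c3 : ∀ b a, lev b < lev a → mg φ G b a = 0 := by
    intro b a hba
    rw [mg_apply, pg_zero]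
    filter_upwards [hG1] with n hn
    exact hn b a hba
  have c4 : ∀ b a, lev b = lev a →
      mg φ G b a = if b = a then ((lev a : GK φ) - (w : GK φ) / 2) else 0 := by
    intro b a hba
    rw [mg_apply]
    have e1 : (if b = a then ((lev a : GK φ) - (w : GK φ) / 2) else 0) =
        pg φ (fun _ => if b = a then (lev a : ℂ) - w / 2 else 0) := by
      by_cases h0 : b = a
      · simp only [if_pos h0]
        change _ = cst φ ((lev a : ℂ) - (w : ℂ) / 2)
        rw [map_sub, map_div₀, map_natCast, map_natCast, map_ofNat]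
      · simp only [if_neg h0]
        exact (map_zero (cst φ)).symm
    rw [e1, pg_eq]
    filter_upwards [hG2] with n hn
    exact hn b a hba
  have c5 : ∀ i a b, Ys i a b ∈ kk φ := fun i a b => ⟨fun n => Y n i a b, rfl⟩
  have c6 : ∀ i, (mg φ Q * mg φ G * (mg φ Q)⁻¹) * Ys i - Ys i * (mg φ Q * mg φ G * (mg φ Q)⁻¹) ∈
      Submodule.span (GK φ) (Set.range Ys) := by
    intro i
    rw [← mg_inv' hQd, ← mg_mul, ← mg_mul]
    simp only [hYs]
    rw [← mg_mul, ← mg_mul, ← mg_sub]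
    have e1 : mg φ (fun n => (Q n * G n * (Q n)⁻¹) * (Y n i).map (algebraMap ℚ ℂ) -
        (Y n i).map (algebraMap ℚ ℂ) * (Q n * G n * (Q n)⁻¹)) =
        mg φ (fun n => ∑ i', bb n i i' • (Y n i').map (algebraMap ℚ ℂ)) := by
      rw [mg_eq]
      filter_upwards [hbb] with n hn
      exact hn i
    rw [e1, mg_sum]
    simp_rw [mg_smul]
    exact Submodule.sum_mem _ fun i' _ => Submodule.smul_mem _ _ (Submodule.subset_span ⟨i', rfl⟩)
  obtain ⟨l, μ, C, hl, hC, hE⟩ := hCor (GK φ) (kk φ) d lev w m c (mg φ U) (mg φ Yh)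
    (fun j => mg φ (x j)) (mg_unit hU) (mg_unit hY) hAlg c1 (mg φ Q) (mg φ G) c2 c3 c4 N Ys
    (fun i => pg φ (fun n => h n i)) c5 hHK c6
  choose lf hlf using fun j => pg_surj (l j)
  choose μf hμf using fun i => pg_surj (μ i)
  obtain ⟨Cf, hCf⟩ := mg_surj C
  -- not all coefficients vanish
  obtain ⟨j0, hj0⟩ : ∃ j, l j ≠ 0 := by
    by_contra hno
    push Not at hno
    exact hl (funext hno)
  rw [← hlf j0, pg_ne] at hj0
  -- the triangular matrix
  have hCt : ∀ᶠ n in (φ : Filter ℕ), ∀ b a, lev b < lev a → Cf n b a = 0 := by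
    refine eventually_all.2 fun b => eventually_all.2 fun a => ?_
    by_cases hba : lev b < lev a
    · have h1 := hC b a hba
      rw [← hCf, mg_apply, pg_zero] at h1
      filter_upwards [h1] with n hn
      exact fun _ => hn
    · exact Eventually.of_forall fun n h => absurd h hba
  have hE' : mg φ (fun n => ∑ j, lf j n • (U n * (x j n)ᵀ * (U n)⁻¹)) =
      mg φ (fun n => ∑ i, μf i n • (Y n i).map (algebraMap ℚ ℂ) + Q n * Cf n * (Q n)⁻¹) := by
    have s1 : mg φ (fun n => ∑ j, lf j n • (U n * (x j n)ᵀ * (U n)⁻¹)) =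
        ∑ j, l j • (mg φ U * (mg φ (x j))ᵀ * (mg φ U)⁻¹) := by
      rw [mg_sum]
      refine Finset.sum_congr rfl fun j _ => ?_
      rw [mg_smul, mg_mul, mg_mul, mg_inv' hU, mg_transpose, hlf]
    have s2 : mg φ (fun n => ∑ i, μf i n • (Y n i).map (algebraMap ℚ ℂ) + Q n * Cf n * (Q n)⁻¹) =
        ∑ i, μ i • Ys i + mg φ Q * C * (mg φ Q)⁻¹ := by
      rw [mg_add, mg_sum, mg_mul, mg_mul, mg_inv' hQd, hCf]
      congr 1
      refine Finset.sum_congr rfl fun i _ => ?_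
      rw [mg_smul, hμf]
    rw [s1, s2]
    exact hE
  rw [mg_eq] at hE'
  filter_upwards [hj0, hCt, hE'] with n h1 h2 h3
  refine ⟨fun j => lf j n, fun i => μf i n, Cf n, ?_, h2, h3⟩
  intro h0
  exact h1 (congrFun h0 j0)

end Pool.Agent.MTF.H74
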