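import Pool.Agent.MTF.StmtsB
import Pool.Agent.Helper64_MTA.Lie

/-! MTF, module GER, part 4: linear algebra. -/

set_option autoImplicit false

namespace Pool.Agent.MTF.H74

open Filter Matrix Module Pool.Agent.Helper78_MT Pool.Agent.Helper46_MT Pool.Agent.MT100

/-- independent combinations can be chosen from a finite spanning family -/
theorem choose_fam {M : Type} [AddCommGroup M] [Module ℂ M] {b m : ℕ} (B : Fin b → M)
    (W : Submodule ℂ M) (X : Fin (m + 1) → M) (hX : ∀ j, X j ∈ Submodule.span ℂ (Set.range B))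
    (hind : ∀ l : Fin (m + 1) → ℂ, l ≠ 0 → ∑ j, l j • X j ∉ W) :
    ∃ τ : Fin (m + 1) → Fin b, ∀ l : Fin (m + 1) → ℂ, l ≠ 0 → ∑ j, l j • B (τ j) ∉ W := by
  classical
  have h1 : LinearIndependent ℂ (W.mkQ ∘ X) := by
    rw [Fintype.linearIndependent_iff]
    intro g hg
    by_contra hne
    push Not at hne
    obtain ⟨i, hi⟩ := hne
    refine hind g (fun h0 => hi (congrFun h0 i)) ?_
    have e1 : W.mkQ (∑ j, g j • X j) = 0 := by
      rw [map_sum]
      simpa [map_smul] using hg
    rwa [Submodule.mkQ_apply, Submodule.Quotient.mk_eq_zero] at e1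
  obtain ⟨κ, a, ha, hspan, hli⟩ := exists_linearIndependent' ℂ (W.mkQ ∘ B)
  have : Finite κ := Finite.of_injective a ha
  let _ : Fintype κ := Fintype.ofFinite κ
  have hcard : m + 1 ≤ Fintype.card κ := by
    have : FiniteDimensional ℂ (Submodule.span ℂ (Set.range (W.mkQ ∘ B ∘ a))) :=
      FiniteDimensional.span_of_finite ℂ (Set.finite_range _)
    have e1 : Fintype.card κ = finrank ℂ (Submodule.span ℂ (Set.range (W.mkQ ∘ B ∘ a))) :=
      (finrank_span_eq_card hli).symm
    have hsub : ∀ j, (W.mkQ ∘ X) j ∈ Submodule.span ℂ (Set.range (W.mkQ ∘ B ∘ a)) := by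
      intro j
      have e2 : Submodule.span ℂ (Set.range (W.mkQ ∘ B ∘ a)) =
          (Submodule.span ℂ (Set.range B)).map W.mkQ := by
        rw [Submodule.map_span, ← Set.range_comp]
        exact hspan
      rw [e2]
      exact Submodule.mem_map_of_mem (hX j)
    rw [e1]
    have h2 : LinearIndependent ℂ (fun j => (⟨(W.mkQ ∘ X) j, hsub j⟩ :
        Submodule.span ℂ (Set.range (W.mkQ ∘ B ∘ a)))) := by
      refine LinearIndependent.of_comp (Submodule.subtype _) ?_
      exact h1
    have h3 := h2.fintype_card_le_finrank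
    rwa [Fintype.card_fin] at h3
  obtain ⟨f⟩ : Nonempty (Fin (m + 1) ↪ κ) := by
    rw [Function.Embedding.nonempty_iff_card_le, Fintype.card_fin]
    exact hcard
  refine ⟨fun j => a (f j), fun l hl hmem => hl ?_⟩
  have h4 : LinearIndependent ℂ (fun j => W.mkQ (B (a (f j)))) := hli.comp f f.injective
  rw [Fintype.linearIndependent_iff] at h4
  funext j
  refine h4 l ?_ j
  have e3 : W.mkQ (∑ j, l j • B (a (f j))) = 0 := by
    rw [Submodule.mkQ_apply, Submodule.Quotient.mk_eq_zero]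
    exact hmem
  rw [map_sum] at e3
  simpa [map_smul] using e3

/-- a finite spanning subfamily -/
theorem fin_span {M : Type} [AddCommGroup M] [Module ℂ M] [FiniteDimensional ℂ M] (S : Set M) :
    ∃ (b : ℕ) (B : Fin b → M), (∀ i, B i ∈ S) ∧ ∀ x ∈ S, x ∈ Submodule.span ℂ (Set.range B) := by
  classical
  obtain ⟨T, hTS, hspan, hli⟩ := exists_linearIndependent ℂ S
  have hfin : T.Finite := hli.setFinite
  let _ : Fintype T := hfin.fintype
  let e := (Fintype.equivFin T).symm
  refine ⟨Fintype.card T, fun i => (e i : M), fun i => hTS (e i).2, fun x hx => ?_⟩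
  have e1 : Set.range (fun i => (e i : M)) = T := by
    have : (fun i => (e i : M)) = (Subtype.val : T → M) ∘ e := rfl
    rw [this, Set.range_comp, e.surjective.range_eq, Set.image_univ, Subtype.range_coe]
  rw [e1, hspan]
  exact Submodule.subset_span hx

variable {d : Type} [Fintype d] [DecidableEq d]

/-- a rational spanning family of fixed length of the Lie algebra -/
theorem rat_span (I : Set (MvPolynomial (d × d) ℚ)) (E : Matrix d d ℚ) :
    ∃ Y : Fin (Fintype.card d * Fintype.card d) → Matrix d d ℚ,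
      Submodule.span ℂ (Set.range fun i => (Y i).map (algebraMap ℚ ℂ)) = Ul I E := by
  classical
  set S : Set (Matrix d d ℂ) := {Z | ∃ Y : Matrix d d ℚ, Z = Y.map (algebraMap ℚ ℂ) ∧ Z ∈ Ul I E}
    with hS
  obtain ⟨T, hTS, hspan, hli⟩ := exists_linearIndependent ℂ S
  have hfin : T.Finite := hli.setFinite
  let _ : Fintype T := hfin.fintype
  have hcard : Fintype.card T ≤ Fintype.card d * Fintype.card d := by
    have h1 := hli.fintype_card_le_finrank
    rwa [Module.finrank_matrix, Module.finrank_self, mul_one] at h1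
  choose y hy using fun t : T => hTS t.2
  obtain ⟨f⟩ : Nonempty (T ↪ Fin (Fintype.card d * Fintype.card d)) := by
    rw [Function.Embedding.nonempty_iff_card_le, Fintype.card_fin]
    exact hcard
  refine ⟨fun i => if h : ∃ t, f t = i then y h.choose else 0, le_antisymm ?_ ?_⟩
  · rw [Submodule.span_le]
    rintro _ ⟨i, rfl⟩
    by_cases h : ∃ t, f t = i
    · simp only [dif_pos h]
      rw [← (hy h.choose).1]
      exact (hy h.choose).2
    · simp only [dif_neg h]
      rw [Matrix.map_zero _ (map_zero _)]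
      exact Submodule.zero_mem _
  · intro X hX
    have h1 := Ul_descent I E hX
    rw [← hS, ← hspan] at h1
    refine Submodule.span_mono ?_ h1
    intro t ht
    refine ⟨f ⟨t, ht⟩, ?_⟩
    have h : ∃ t', f t' = f ⟨t, ht⟩ := ⟨_, rfl⟩
    simp only [dif_pos h]
    have e1 : h.choose = ⟨t, ht⟩ := f.injective h.choose_spec
    rw [← (hy h.choose).1, e1]

/-- the grading element moves the filtration by a scalar -/
theorem fil_step {V : ℕ → Submodule ℂ (d → ℂ)} {w : ℕ} {H : Matrix d d ℂ}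
    (hH : ∀ p, ∀ x ∈ V p, H *ᵥ x = ((p : ℂ) - w / 2) • x) {p : ℕ} {x : d → ℂ}
    (hx : x ∈ Fil V p) : H *ᵥ x - ((p : ℂ) - w / 2) • x ∈ Fil V (p + 1) := by
  have key : Fil V p ≤ (Fil V (p + 1)).comap
      (Matrix.mulVecLin (H - ((p : ℂ) - w / 2) • (1 : Matrix d d ℂ))) := by
    unfold Fil
    refine iSup₂_le fun p' hp' => ?_
    intro y hy
    rw [Submodule.mem_comap, Matrix.mulVecLin_apply, Matrix.sub_mulVec, Matrix.smul_mulVec,
      Matrix.one_mulVec, hH p' y hy, ← sub_smul]
    rcases eq_or_lt_of_le (Set.mem_Ici.1 hp') with h | h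
    · subst h
      rw [sub_self, zero_smul]
      exact Submodule.zero_mem _
    · refine Submodule.smul_mem _ _ ?_
      refine (?_ : V p' ≤ _) hy
      exact le_iSup₂_of_le p' (Set.mem_Ici.2 h) (le_refl _)
  have h1 := key hx
  rwa [Submodule.mem_comap, Matrix.mulVecLin_apply, Matrix.sub_mulVec, Matrix.smul_mulVec,
    Matrix.one_mulVec] at h1

omit [Fintype d] [DecidableEq d] in
theorem fil_anti {V : ℕ → Submodule ℂ (d → ℂ)} {p q : ℕ} (h : p ≤ q) : Fil V q ≤ Fil V p :=
  biSup_mono fun _ hp => le_trans h hp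

/-- coordinates with respect to the columns of `Q` -/
theorem coord {Q : Matrix d d ℂ} (hQ : IsUnit Q.det) {S : Set d} {v : d → ℂ}
    (hv : Q *ᵥ v ∈ Submodule.span ℂ {y | ∃ a ∈ S, y = Q *ᵥ Pi.single a 1}) {b : d} (hb : b ∉ S) :
    v b = 0 := by
  have key : Submodule.span ℂ {y | ∃ a ∈ S, y = Q *ᵥ Pi.single a 1} ≤
      LinearMap.ker ((LinearMap.proj b : (d → ℂ) →ₗ[ℂ] ℂ).comp (Matrix.mulVecLin Q⁻¹)) := by
    rw [Submodule.span_le]
    rintro _ ⟨a, ha, rfl⟩
    rw [SetLike.mem_coe, LinearMap.mem_ker, LinearMap.comp_apply, Matrix.mulVecLin_apply,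
      Matrix.mulVec_mulVec, nonsing_inv_mul _ hQ, Matrix.one_mulVec, LinearMap.proj_apply]
    refine Pi.single_eq_of_ne ?_ _
    rintro rfl
    exact hb ha
  have h1 := key hv
  rw [LinearMap.mem_ker, LinearMap.comp_apply, Matrix.mulVecLin_apply,
    Matrix.mulVec_mulVec, nonsing_inv_mul _ hQ, Matrix.one_mulVec, LinearMap.proj_apply] at h1
  exact h1

section tri
variable {V : ℕ → Submodule ℂ (d → ℂ)} {lev : d → ℕ} {Q : Matrix d d ℂ}

/-- the filtration is given by the columns of `Q` -/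
def ByCol (lev : d → ℕ) (Q : Matrix d d ℂ) (V : ℕ → Submodule ℂ (d → ℂ)) : Prop :=
  ∀ p, Fil V p = Submodule.span ℂ {y | ∃ a ∈ {a | p ≤ lev a}, y = Q *ᵥ Pi.single a 1}

theorem col_mem (hF : ByCol lev Q V) (a : d) : Q *ᵥ Pi.single a 1 ∈ Fil V (lev a) := by
  rw [hF]
  exact Submodule.subset_span ⟨a, le_refl (lev a), rfl⟩

/-- the grading element is block triangular in the basis of the columns -/
theorem tri (hQ : IsUnit Q.det) (hF : ByCol lev Q V) {w : ℕ} {H : Matrix d d ℂ}
    (hH : ∀ p, ∀ x ∈ V p, H *ᵥ x = ((p : ℂ) - w / 2) • x) :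
    (∀ b a, lev b < lev a → (Q⁻¹ * H * Q) b a = 0) ∧
    ∀ b a, lev b = lev a → (Q⁻¹ * H * Q) b a = if b = a then (lev a : ℂ) - w / 2 else 0 := by
  have e0 : ∀ a, H *ᵥ (Q *ᵥ Pi.single a 1) = Q *ᵥ ((Q⁻¹ * H * Q) *ᵥ Pi.single a 1) := by
    intro a
    rw [Matrix.mulVec_mulVec, Matrix.mulVec_mulVec, ← Matrix.mul_assoc, ← Matrix.mul_assoc,
      mul_nonsing_inv _ hQ, Matrix.one_mul]
  have e1 : ∀ a b, ((Q⁻¹ * H * Q) *ᵥ Pi.single a 1) b = (Q⁻¹ * H * Q) b a := by
    intro a b
    rw [Matrix.mulVec_single_one]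
    rfl
  have e2 : ∀ a, Q *ᵥ ((Q⁻¹ * H * Q) *ᵥ Pi.single a 1 - ((lev a : ℂ) - w / 2) • Pi.single a 1) ∈
      Submodule.span ℂ {y | ∃ b ∈ {b | lev a + 1 ≤ lev b}, y = Q *ᵥ Pi.single b 1} := by
    intro a
    rw [← hF (lev a + 1), Matrix.mulVec_sub, ← e0, Matrix.mulVec_smul]
    exact fil_step hH (col_mem hF a)
  have e3 : ∀ a b, lev b ≤ lev a → (Q⁻¹ * H * Q) b a =
      if b = a then (lev a : ℂ) - w / 2 else 0 := by
    intro a b hba
    have h1 := coord hQ (e2 a) (b := b) (by
      intro h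
      have : lev a + 1 ≤ lev b := h
      omega)
    rw [Pi.sub_apply, Pi.smul_apply, e1, sub_eq_zero, smul_eq_mul] at h1
    rw [h1]
    by_cases h : b = a
    · subst h
      rw [if_pos rfl, Pi.single_eq_same, mul_one]
    · rw [if_neg h, Pi.single_eq_of_ne h, mul_zero]
  refine ⟨fun b a hba => ?_, fun b a hba => e3 a b hba.le⟩
  rw [e3 a b hba.le, if_neg]
  rintro rfl
  exact lt_irrefl _ hba

/-- block triangular matrices preserve the filtration -/
theorem tri_mem (hQ : IsUnit Q.det) (hF : ByCol lev Q V) {C : Matrix d d ℂ}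
    (hC : ∀ b a, lev b < lev a → C b a = 0) : Q * C * Q⁻¹ ∈ F0 V := by
  intro p x hx
  have key : Fil V p ≤ (Fil V p).comap (Matrix.mulVecLin (Q * C * Q⁻¹)) := by
    conv_lhs => rw [hF p]
    rw [Submodule.span_le]
    rintro _ ⟨a, ha, rfl⟩
    have hap : p ≤ lev a := ha
    rw [SetLike.mem_coe, Submodule.mem_comap, Matrix.mulVecLin_apply, Matrix.mulVec_mulVec,
      Matrix.mul_assoc, nonsing_inv_mul _ hQ, Matrix.mul_one]
    have e1 : (Q * C) *ᵥ Pi.single a 1 = ∑ b, C b a • (Q *ᵥ Pi.single b 1) := by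
      rw [← Matrix.mulVec_mulVec, Matrix.mulVec_single_one]
      have e2 : C.col a = ∑ b, C b a • (Pi.single b 1 : d → ℂ) := by
        funext i
        rw [Finset.sum_apply]
        simp [Pi.single_apply]
      rw [e2, Matrix.mulVec_sum]
      exact Finset.sum_congr rfl fun b _ => Matrix.mulVec_smul _ _ _
    rw [e1]
    refine Submodule.sum_mem _ fun b _ => ?_
    by_cases hb : lev b < lev a
    · rw [hC b a hb, zero_smul]
      exact Submodule.zero_mem _
    · exact Submodule.smul_mem _ _ (fil_anti (hap.trans (not_lt.1 hb)) (col_mem hF b))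
  exact key hx

end tri

end Pool.Agent.MTF.H74
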