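import Pool.Agent.Helper74_MTF.Ger2
import Pool.Agent.Helper74_MTF.Ger3
import Pool.Agent.Helper74_MTF.Ger4

/-! MTF, module GER, part 5: for all large `n` the codimension of the Mumford-Tate domain of the fibre
in the generic one is at most the number of the period constants. -/

set_option autoImplicit false

namespace Pool.Agent.MTF.H74

open Filter Matrix Module Pool.Agent.Helper78_MT Pool.Agent.Helper46_MT Pool.Agent.MT100
  Pool.Agent.MT100G Pool.Agent.MT100A Pool.Agent.MT100D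

variable {d : Type} [Fintype d] [DecidableEq d]

/-- the integer `e` is exceptional -/
def Bad (F : Family d) (w : ℕ) (lev : d → ℕ) (P : Matrix d d ℂ) (m e : ℕ) : Prop :=
  ∃ (E : Matrix d d ℚ) (V : ℕ → Submodule ℂ (d → ℂ)), PolHodge w E V ∧ F.HasFil lev P e V ∧
    ∃ I : Set (MvPolynomial (d × d) ℚ), IsAlgSubgroup I ∧ hodgeTorus w V ⊆ zeros I ℂ ∧
      ∃ X : Fin (m + 1) → Matrix d d ℂ, (∀ j, X j ∈ H78.nilP (F.Mo P)) ∧
        ∀ l : Fin (m + 1) → ℂ, l ≠ 0 → ∑ j, l j • X j ∉ Ul I E ⊔ F0 V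

theorem det_Y (hBas : BasDStmt) (F : Family d) (D : ℕ) :
    ∀ᶠ n : ℕ in atTop, IsUnit (F.Y ((n : ℂ) - D)).det := by
  obtain ⟨R, hR⟩ := hBas d F
  have h1 : ∀ᶠ n : ℕ in atTop, R + 1 + D < (n : ℝ) :=
    (tendsto_natCast_atTop_atTop (R := ℝ)).eventually (eventually_gt_atTop _)
  filter_upwards [h1] with n hn
  have h2 := hR.sol ((n : ℂ) - D) 1 one_pos (by
    intro z hz
    rw [Metric.mem_ball, Complex.dist_eq] at hz
    have h3 := Complex.abs_re_le_norm (z - ((n : ℂ) - D))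
    have h4 : (z - ((n : ℂ) - D)).re = z.re - ((n : ℝ) - D) := by simp
    rw [h4] at h3
    have h5 := abs_lt.1 (lt_of_le_of_lt h3 hz)
    change R < z.re
    linarith [h5.1])
  exact h2.det _ (Metric.mem_ball_self one_pos)

/-- the ultraproduct argument, at one ultrafilter -/
theorem not_bad (hCor : CorStmt) (hPer : PerStmt) (hNip : NipStmt) (hVag : VagDStmt)
    (hBas : BasDStmt) (F : Family d) (w : ℕ) (lev : d → ℕ) (hw : 1 ≤ w) (P : Matrix d d ℂ)
    (hP : IsUnit P.det) (δ : ℕ) (c : Fin δ → ℂ)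
    (hc : ∀ i j, IsAlgebraic (IntermediateField.adjoin ℚ (Set.range c)) (P i j)) (m : ℕ)
    (hm : δ + (if F.N = 0 then 0 else 1) ≤ m) :
    ∃ n0 : ℕ, ∀ e : ℕ, n0 ≤ e → ¬ Bad F w lev P m e := by
  classical
  by_contra hno
  push Not at hno
  obtain ⟨D, t, ht0, hper⟩ := hPer d F
  -- the set of the exceptional indices and an ultrafilter on it
  set S : Set ℕ := {n | D ≤ n ∧ Bad F w lev P m (n - D)} with hS
  have hinf : (atTop ⊓ 𝓟 S : Filter ℕ).NeBot := by
    rw [Filter.inf_principal_neBot_iff]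
    intro U hU
    obtain ⟨a, ha⟩ := mem_atTop_sets.1 hU
    obtain ⟨e, he, hbad⟩ := hno a
    refine ⟨e + D, ha _ (by omega), by omega, ?_⟩
    rwa [Nat.add_sub_cancel]
  set φ : Ultrafilter ℕ := Ultrafilter.of (atTop ⊓ 𝓟 S) with hφ
  have hle : (φ : Filter ℕ) ≤ atTop ⊓ 𝓟 S := Ultrafilter.of_le _
  have hT : (φ : Filter ℕ) ≤ atTop := hle.trans inf_le_left
  have hSφ : ∀ᶠ n : ℕ in (φ : Filter ℕ), n ∈ S := (hle.trans inf_le_right) (mem_principal_self S)
  -- a finite set of directions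
  obtain ⟨b, B, hB, hspan⟩ := fin_span (H78.nilP (F.Mo P))
  have hdata : ∀ n : ℕ, ∃ (E : Matrix d d ℚ) (V : ℕ → Submodule ℂ (d → ℂ))
      (I : Set (MvPolynomial (d × d) ℚ)) (τ : Fin (m + 1) → Option (Fin b)), n ∈ S →
      PolHodge w E V ∧ F.HasFil lev P ((n - D : ℕ) : ℂ) V ∧ IsAlgSubgroup I ∧
      hodgeTorus w V ⊆ zeros I ℂ ∧ ∃ τ' : Fin (m + 1) → Fin b, (∀ j, τ j = some (τ' j)) ∧
      ∀ l : Fin (m + 1) → ℂ, l ≠ 0 → ∑ j, l j • B (τ' j) ∉ Ul I E ⊔ F0 V := by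
    intro n
    by_cases hn : n ∈ S
    · obtain ⟨E, V, hV, hF, I, hI, hTo, X, hX, hX2⟩ := hn.2
      obtain ⟨τ, hτ⟩ := choose_fam B (Ul I E ⊔ F0 V) X (fun j => hspan _ (hX j)) hX2
      exact ⟨E, V, I, fun j => some (τ j), fun _ => ⟨hV, hF, hI, hTo, τ, fun j => rfl, hτ⟩⟩
    · exact ⟨0, fun _ => ⊥, ∅, fun _ => none, fun h => absurd h hn⟩
  choose E V I τ hdat using hdata
  -- the directions are constant along the ultrafilter
  obtain ⟨τ0, hτ0⟩ : ∃ τ0, ∀ᶠ n : ℕ in (φ : Filter ℕ), τ n = τ0 := by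
    obtain ⟨x, hx⟩ := Ultrafilter.eq_pure_of_finite (φ.map τ)
    refine ⟨x, ?_⟩
    have h1 : {x} ∈ φ.map τ := by rw [hx]; exact Ultrafilter.mem_pure.2 rfl
    exact h1
  obtain ⟨n1, hn1S, hn1τ⟩ := (hSφ.and hτ0).exists
  obtain ⟨-, -, -, -, τ', hτ', -⟩ := hdat n1 hn1S
  rw [hn1τ] at hτ'
  have hxx : ∀ j, ∃ x ∈ H78.nilP (F.mo Set.univ), B (τ' j) = P * xᵀ * P⁻¹ := fun j =>
    hNip d F P hP _ (hB _)
  choose xs hxs hBx using hxx
  -- the matrices
  set U : ℕ → Matrix d d ℂ := fun n => P * ((F.R (n : ℂ))⁻¹)ᵀ with hU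
  set Yh : ℕ → Matrix d d ℂ := fun n => t n • F.tv D n with hYh
  set x : Fin (m + 1) → ℕ → Matrix d d ℂ := fun j n => (F.R (n : ℂ))⁻¹ * xs j * F.R (n : ℂ)
    with hx
  set Q : ℕ → Matrix d d ℂ := fun n => U n * (Yh n)ᵀ with hQ
  have hRu : ∀ n : ℕ, IsUnit (F.R (n : ℂ)).det := by
    intro n
    obtain ⟨R', h1, -⟩ := MT100D.H64.r_inv F (n : ℂ)
    have h2 := congrArg det h1
    rw [det_mul, det_one] at h2
    exact IsUnit.of_mul_eq_one _ h2
  have hUu : ∀ n, IsUnit (U n).det := by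
    intro n
    rw [hU]
    simp only
    rw [det_mul, det_transpose]
    exact hP.mul (isUnit_nonsing_inv_det _ (hRu n))
  obtain ⟨n3, hn3⟩ := MT100D.H64.y_value hVag F D
  have hval : ∀ᶠ n : ℕ in (φ : Filter ℕ), F.Y ((n : ℂ) - D) * F.R n = F.tv D n :=
    hT (eventually_atTop.2 ⟨n3, fun n hn => hn3 n hn⟩)
  have hdY : ∀ᶠ n : ℕ in (φ : Filter ℕ), IsUnit (F.Y ((n : ℂ) - D)).det := hT (det_Y hBas F D)
  have hYu : ∀ᶠ n : ℕ in (φ : Filter ℕ), IsUnit (Yh n).det := by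
    filter_upwards [hval, hdY] with n h1 h2
    rw [hYh]
    simp only
    rw [det_smul, ← h1, det_mul]
    exact (((isUnit_iff_ne_zero.2 (ht0 n)).pow _)).mul (h2.mul (hRu n))
  -- the columns of `Q` are the periods
  have hQcol : ∀ᶠ n : ℕ in (φ : Filter ℕ), n ∈ S → ByCol lev (Q n) (V n) ∧ IsUnit (Q n).det := by
    filter_upwards [hval, hdY, hYu] with n h1 h2 h3
    intro hn
    obtain ⟨hV, hF, -⟩ := hdat n hn
    have hcast : ((n - D : ℕ) : ℂ) = (n : ℂ) - D := Nat.cast_sub hn.1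
    have hcol : ∀ a, Q n *ᵥ Pi.single a 1 = t n • F.per P ((n : ℂ) - D) a := by
      intro a
      have e1 : Q n = t n • (P * (F.Y ((n : ℂ) - D))ᵀ) := by
        rw [hQ, hU, hYh]
        simp only
        rw [transpose_smul, Matrix.mul_smul, ← h1, transpose_mul, ← Matrix.mul_assoc,
          Matrix.mul_assoc P, ← transpose_mul, mul_nonsing_inv _ (hRu n), transpose_one,
          Matrix.mul_one]
      rw [e1, Matrix.smul_mulVec, ← Matrix.mulVec_mulVec, Matrix.mulVec_single_one]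
      rfl
    refine ⟨fun p => ?_, ?_⟩
    · have hFp := hF p
      rw [hcast] at hFp
      unfold Fil
      rw [hFp]
      apply le_antisymm
      · rw [Submodule.span_le]
        rintro _ ⟨a, ha, rfl⟩
        have e2 : F.per P ((n : ℂ) - D) a = (t n)⁻¹ • (Q n *ᵥ Pi.single a 1) := by
          rw [hcol, smul_smul, inv_mul_cancel₀ (ht0 n), one_smul]
        rw [SetLike.mem_coe, e2]
        exact Submodule.smul_mem _ _ (Submodule.subset_span ⟨a, ha, rfl⟩)
      · rw [Submodule.span_le]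
        rintro _ ⟨a, ha, rfl⟩
        rw [SetLike.mem_coe, hcol]
        exact Submodule.smul_mem _ _ (Submodule.subset_span ⟨a, ha, rfl⟩)
    · change IsUnit (U n * (Yh n)ᵀ).det
      rw [det_mul, det_transpose]
      exact (hUu n).mul h3
  -- the grading element
  have hgr : ∀ n : ℕ, ∃ H : Matrix d d ℂ, n ∈ S → H ∈ Ul (I n) (E n) ∧
      ∀ p, ∀ x ∈ V n p, H *ᵥ x = ((p : ℂ) - w / 2) • x := by
    intro n
    by_cases hn : n ∈ S
    · obtain ⟨hV, -, hI, hTo, -⟩ := hdat n hn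
      obtain ⟨π, hπ, h1, h2, h3⟩ := proj_of hV
      have hI' : ∀ z : ℂ, z ≠ 0 → hz w π z ∈ zeros (I n) ℂ := fun z hz0 =>
        hTo (hz_torus hπ h2 hz0)
      refine ⟨Phi' w π, fun _ => ⟨Phi'_mem hπ hw hI hI', fun p x hx => ?_⟩⟩
      by_cases hp : p ≤ w
      · unfold Phi'
        rw [Matrix.sub_mulVec, Matrix.smul_mulVec, Matrix.one_mulVec]
        have e1 : Phi w π *ᵥ x = (p : ℂ) • x := by
          unfold Phi
          rw [Matrix.sum_mulVec, Finset.sum_eq_single p]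
          · rw [Matrix.smul_mulVec, h2 p x hx]
          · intro q _ hq
            rw [Matrix.smul_mulVec, h3 q p hq x hx, smul_zero]
          · intro hp'
            exact absurd (Finset.mem_range.2 (by omega)) hp'
        rw [e1, ← sub_smul]
      · rw [hV.top p (by omega), Submodule.mem_bot] at hx
        rw [hx, Matrix.mulVec_zero, smul_zero]
    · exact ⟨0, fun h => absurd h hn⟩
  choose H hH using hgr
  -- rational spanning families
  choose Y hY using fun n => rat_span (I n) (E n)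
  have hcoef : ∀ n : ℕ, ∃ h : Fin (Fintype.card d * Fintype.card d) → ℂ, n ∈ S →
      H n = ∑ i, h i • (Y n i).map (algebraMap ℚ ℂ) := by
    intro n
    by_cases hn : n ∈ S
    · have h1 := (hH n hn).1
      rw [← hY n] at h1
      obtain ⟨h, hh⟩ := (Submodule.mem_span_range_iff_exists_fun ℂ).1 h1
      exact ⟨h, fun _ => hh.symm⟩
    · exact ⟨0, fun h => absurd h hn⟩
  choose h hh using hcoef
  obtain ⟨c', hc'⟩ := ual (φ := φ) F P c hc hm
  have hconj : ∀ᶠ n : ℕ in (φ : Filter ℕ), Q n * ((Q n)⁻¹ * H n * Q n) * (Q n)⁻¹ = H n := by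
    filter_upwards [hQcol, hSφ] with n h1 h2
    have hu := (h1 h2).2
    calc Q n * ((Q n)⁻¹ * H n * Q n) * (Q n)⁻¹
        = (Q n * (Q n)⁻¹) * H n * (Q n * (Q n)⁻¹) := by simp only [Matrix.mul_assoc]
      _ = H n := by rw [mul_nonsing_inv _ hu, Matrix.one_mul, Matrix.mul_one]
  have key := ger_core (φ := φ) hCor lev w m c' U Yh x (Eventually.of_forall hUu) hYu hc' (by
      intro j e
      obtain ⟨n0, hn0⟩ := hper e
      refine hT (eventually_atTop.2 ⟨n0, fun n hn R hR hR0 => ?_⟩)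
      have h1 := hn0 n hn R hR hR0 (xs j) (hxs j)
      rw [← h1]
      refine Finset.sum_congr rfl fun p _ => ?_
      congr 1
      rw [hYh, hx]
      simp only
      rw [Matrix.smul_mul, Matrix.smul_apply, smul_eq_mul])
    Q (fun n => (Q n)⁻¹ * H n * Q n) (fun n => rfl) (by
      filter_upwards [hQcol, hSφ] with n h1 h2
      exact (tri (h1 h2).2 (h1 h2).1 (hH n h2).2).1) (by
      filter_upwards [hQcol, hSφ] with n h1 h2
      exact (tri (h1 h2).2 (h1 h2).1 (hH n h2).2).2)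
    (Fintype.card d * Fintype.card d) Y h (by
      filter_upwards [hconj, hSφ] with n h1 h2
      rw [h1]
      exact hh n h2) (by
      filter_upwards [hconj, hSφ] with n h1 h2
      intro i
      rw [h1]
      have h3 : (Y n i).map (algebraMap ℚ ℂ) ∈ Ul (I n) (E n) := by
        rw [← hY n]
        exact Submodule.subset_span ⟨i, rfl⟩
      rw [hY n]
      exact MT100A.H64.Ul_br (hH n h2).1 h3)
  obtain ⟨n, ⟨l, μ, C, hl, hC, hE⟩, hnS, hnτ, hcolS⟩ := (key.and (hSφ.and (hτ0.and hQcol))).exists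
  obtain ⟨-, -, -, -, τ'', hτ'', hfin⟩ := hdat n hnS
  have hττ : τ'' = τ' := by
    funext j
    have h1 := hτ'' j
    rw [hnτ, hτ' j] at h1
    exact (Option.some_injective _ h1).symm
  subst hττ
  refine hfin l hl ?_
  have e1 : ∀ j, U n * (x j n)ᵀ * (U n)⁻¹ = B (τ'' j) := by
    intro j
    have hUi : (U n)⁻¹ = (F.R (n : ℂ))ᵀ * P⁻¹ := by
      refine inv_eq_right_inv ?_
      rw [hU]
      simp only
      calc P * ((F.R (n : ℂ))⁻¹)ᵀ * ((F.R (n : ℂ))ᵀ * P⁻¹)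
          = P * (((F.R (n : ℂ))⁻¹)ᵀ * (F.R (n : ℂ))ᵀ) * P⁻¹ := by simp only [Matrix.mul_assoc]
        _ = 1 := by
          rw [← transpose_mul, mul_nonsing_inv _ (hRu n), transpose_one, Matrix.mul_one,
            mul_nonsing_inv _ hP]
    rw [hUi, hBx j, hU, hx]
    simp only
    rw [transpose_mul, transpose_mul]
    calc P * ((F.R (n : ℂ))⁻¹)ᵀ * ((F.R (n : ℂ))ᵀ * ((xs j)ᵀ * ((F.R (n : ℂ))⁻¹)ᵀ)) *
          ((F.R (n : ℂ))ᵀ * P⁻¹)
        = P * (((F.R (n : ℂ))⁻¹)ᵀ * (F.R (n : ℂ))ᵀ) * (xs j)ᵀ *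
          (((F.R (n : ℂ))⁻¹)ᵀ * (F.R (n : ℂ))ᵀ) * P⁻¹ := by simp only [Matrix.mul_assoc]
      _ = P * (xs j)ᵀ * P⁻¹ := by
        rw [← transpose_mul, mul_nonsing_inv _ (hRu n), transpose_one, Matrix.mul_one,
          Matrix.mul_one]
  rw [Finset.sum_congr rfl fun j _ => by rw [e1 j]] at hE
  rw [hE]
  refine Submodule.add_mem_sup ?_ ?_
  · rw [← hY n]
    exact Submodule.sum_mem _ fun i _ => Submodule.smul_mem _ _ (Submodule.subset_span ⟨i, rfl⟩)
  · exact tri_mem (hcolS hnS).2 (hcolS hnS).1 hC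

/-- COD -/
theorem cod (hCor : CorStmt) (hPer : PerStmt) (hNip : NipStmt) (hVag : VagDStmt)
    (hBas : BasDStmt) : CodStmt := by
  intro d _ _ F w lev hw P hP δ c hc m hm
  obtain ⟨n0, h⟩ := not_bad hCor hPer hNip hVag hBas F w lev hw P hP δ c hc m hm
  refine ⟨n0, fun n hn E V hV hF I hI hTo X hX => ?_⟩
  by_contra hno
  push Not at hno
  exact h n hn ⟨E, V, hV, hF, I, hI, hTo, X, hX, hno⟩

end Pool.Agent.MTF.H74
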