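import Pool.Agent.MTF.StmtsA

/-! MTF, module TRD: a combination of `m + 1` derivations kills everything algebraic over a field
generated by `m` elements. -/

set_option autoImplicit false

namespace Pool.Agent.MTF.H74

open Pool.Agent.MTF

/-- the constants of a derivation form an intermediate field -/
def kerD {K : Type} [Field K] {k : Subfield K} (D : Derivation k K K) : IntermediateField k K where
  carrier := {x | D x = 0}
  mul_mem' := by
    intro a b ha hb
    change D (a * b) = 0
    change D a = 0 at ha
    change D b = 0 at hb
    rw [D.leibniz, ha, hb]; simp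
  add_mem' := by
    intro a b ha hb
    change D (a + b) = 0
    change D a = 0 at ha
    change D b = 0 at hb
    rw [map_add, ha, hb, add_zero]
  algebraMap_mem' := fun r => D.map_algebraMap r
  inv_mem' := by
    intro a ha
    change D a = 0 at ha
    change D a⁻¹ = 0
    rw [D.leibniz_inv, ha, smul_zero]

theorem kerD_alg {K : Type} [Field K] [CharZero K] {k : Subfield K} (D : Derivation k K K)
    (x : K) (hx : IsAlgebraic (kerD D) x) : D x = 0 := by
  have hi : IsIntegral (kerD D) x := hx.isIntegral
  let D' : Derivation (kerD D) K K :=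
    { toFun := D
      map_add' := map_add D
      map_smul' := by
        intro a y
        change D ((a : K) * y) = (a : K) * D y
        have ha : D (a : K) = 0 := a.2
        rw [D.leibniz, ha, smul_zero, add_zero, smul_eq_mul]
      map_one_eq_zero' := D.map_one_eq_zero
      leibniz' := D.leibniz }
  have h1 : D' (Polynomial.aeval x (minpoly (kerD D) x)) =
      Polynomial.aeval x (Polynomial.derivative (minpoly (kerD D) x)) • D' x :=
    Derivation.map_aeval D' _ _
  rw [minpoly.aeval, map_zero] at h1
  have hsep : (minpoly (kerD D) x).Separable := (minpoly.irreducible hi).separable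
  have h2 : Polynomial.aeval x (Polynomial.derivative (minpoly (kerD D) x)) ≠ 0 :=
    hsep.aeval_derivative_ne_zero (minpoly.aeval _ _)
  have h3 := h1.symm
  rw [smul_eq_mul, mul_eq_zero] at h3
  exact h3.resolve_left h2

theorem trd : TrdStmt := by
  intro K _ _ k m c D
  -- dependence of the `m + 1` vectors `(D_j c_i)_i`
  have h1 : ¬ LinearIndependent K (fun j : Fin (m + 1) => fun i : Fin m => D j (c i)) := by
    intro h
    have := h.fintype_card_le_finrank
    simp at this
  rw [Fintype.not_linearIndependent_iff] at h1
  obtain ⟨l, hl, j, hj⟩ := h1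
  refine ⟨l, fun h => hj (by rw [h]; rfl), ?_⟩
  let Δ : Derivation k K K := ∑ j, l j • D j
  have hΔ : ∀ x, Δ x = ∑ j, l j * D j x := by
    intro x
    have h2 : (⇑(∑ j, l j • D j) : K → K) = ∑ j, ⇑(l j • D j) :=
      map_sum (Derivation.coeFnAddMonoidHom (R := k) (A := K) (M := K)) _ _
    change (∑ j, l j • D j) x = _
    rw [h2, Finset.sum_apply]
    simp
  have hc : ∀ i, Δ (c i) = 0 := by
    intro i
    rw [hΔ]
    have := congrFun hl i
    simpa using this
  have hle : IntermediateField.adjoin k (Set.range c) ≤ kerD Δ := by
    rw [IntermediateField.adjoin_le_iff]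
    rintro _ ⟨i, rfl⟩
    exact hc i
  intro x hx
  rw [← hΔ]
  apply kerD_alg
  obtain ⟨p, hp, hpx⟩ := hx
  refine ⟨p.map (IntermediateField.inclusion hle).toRingHom, ?_, ?_⟩
  · rw [Polynomial.map_ne_zero_iff]
    exact hp
    exact (IntermediateField.inclusion hle).injective
  · rw [Polynomial.aeval_def, Polynomial.eval₂_map]
    exact hpx

end Pool.Agent.MTF.H74
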