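import Pool.Agent.Helper74_MTF.Ger1
import Pool.Agent.MTF.StmtsB
import Pool.Agent.Helper64_MTD.Ela

/-! MTF, module GER, part 2: the germ of the matrix `P R(n)⁻ᵀ` is algebraic over the constants. -/

set_option autoImplicit false

namespace Pool.Agent.MTF.H74

open Filter Matrix IntermediateField Pool.Agent.MT100 Pool.Agent.MT100G Pool.Agent.MT100A
  Pool.Agent.MT100D

variable {φ : Ultrafilter ℕ}

/-- the elements of the germ field which are algebraic over the rational germs and `c` -/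
noncomputable abbrev AC {m : ℕ} (c : Fin m → GK φ) :
    IntermediateField (adjoin (kk φ) (Set.range c)) (GK φ) :=
  algebraicClosure (adjoin (kk φ) (Set.range c)) (GK φ)

theorem mem_AC {m : ℕ} {c : Fin m → GK φ} {x : GK φ} :
    x ∈ AC c ↔ IsAlgebraic (adjoin (kk φ) (Set.range c)) x := mem_algebraicClosure_iff

theorem adj_AC {m : ℕ} {c : Fin m → GK φ} {x : GK φ} (hx : x ∈ adjoin (kk φ) (Set.range c)) :
    x ∈ AC c := (AC c).algebraMap_mem ⟨x, hx⟩

theorem kk_AC {m : ℕ} (c : Fin m → GK φ) {x : GK φ} (hx : x ∈ kk φ) : x ∈ AC c :=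
  adj_AC ((adjoin (kk φ) (Set.range c)).algebraMap_mem ⟨x, hx⟩)

theorem cst_mem {δ m : ℕ} (c : Fin δ → ℂ) (c' : Fin m → GK φ)
    (h : ∀ i, cst φ (c i) ∈ Set.range c') {z : ℂ} (hz : z ∈ adjoin ℚ (Set.range c)) :
    cst φ z ∈ adjoin (kk φ) (Set.range c') := by
  induction hz using adjoin_induction with
  | mem x hx =>
    obtain ⟨i, rfl⟩ := hx
    exact subset_adjoin _ _ (h i)
  | algebraMap x =>
    exact (adjoin (kk φ) (Set.range c')).algebraMap_mem ⟨_, rat_mem x⟩
  | add x y _ _ hx hy => rw [map_add]; exact add_mem hx hy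
  | inv x _ hx => rw [map_inv₀]; exact inv_mem hx
  | mul x y _ _ hx hy => rw [map_mul]; exact mul_mem hx hy

theorem cst_alg {δ m : ℕ} (c : Fin δ → ℂ) (c' : Fin m → GK φ)
    (h : ∀ i, cst φ (c i) ∈ Set.range c') {z : ℂ} (hz : IsAlgebraic (adjoin ℚ (Set.range c)) z) :
    cst φ z ∈ AC c' := by
  rw [mem_AC]
  obtain ⟨p, hp, hpz⟩ := hz
  let f : adjoin ℚ (Set.range c) →+* adjoin (kk φ) (Set.range c') :=
    ((cst φ).comp (algebraMap (adjoin ℚ (Set.range c)) ℂ)).codRestrict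
      (adjoin (kk φ) (Set.range c')).toSubring (fun x => cst_mem c c' h x.2)
  have hf : ∀ x, ((f x : adjoin (kk φ) (Set.range c')) : GK φ) = cst φ (x : ℂ) := fun x => rfl
  refine ⟨p.map f, (Polynomial.map_ne_zero_iff f.injective).2 hp, ?_⟩
  rw [Polynomial.aeval_def, Polynomial.eval₂_map]
  have e1 : (algebraMap (adjoin (kk φ) (Set.range c')) (GK φ)).comp f =
      (cst φ).comp (algebraMap (adjoin ℚ (Set.range c)) ℂ) := by
    ext x
    exact hf x
  rw [e1, ← Polynomial.hom_eval₂, ← Polynomial.aeval_def, hpz, map_zero]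

/-- the germ of `n ^ (-q)` -/
theorem exp_mem {m : ℕ} (c : Fin m → GK φ) (q : ℚ) :
    pg φ (fun n : ℕ => Complex.exp ((q : ℂ) * -Complex.log (n : ℂ))) ∈ AC c := by
  rw [mem_AC]
  have h1 : (pg φ (fun n : ℕ => Complex.exp ((q : ℂ) * -Complex.log (n : ℂ)))) ^ q.den ∈ kk φ := by
    refine ⟨fun n => ((if n = 0 then 1 else n : ℕ) : ℚ) ^ (-q.num), ?_⟩
    rw [← map_pow]
    congr 1
    funext n
    rw [Pi.pow_apply, ← Complex.exp_nat_mul]
    rcases Nat.eq_zero_or_pos n with h0 | h0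
    · subst h0
      simp
    · simp only [if_neg h0.ne']
      have h2 : (q.den : ℂ) * ((q : ℂ) * -Complex.log (n : ℂ)) = ((-q.num : ℤ) : ℂ) *
          Complex.log (n : ℂ) := by
        have h3 : (q : ℂ) * (q.den : ℂ) = (q.num : ℂ) := by
          exact_mod_cast congrArg (fun x : ℚ => (x : ℂ)) (Rat.mul_den_eq_num q)
        push_cast
        linear_combination (-Complex.log (n : ℂ)) * h3
      have hn : (n : ℂ) ≠ 0 := Nat.cast_ne_zero.2 h0.ne'
      rw [h2, Complex.exp_int_mul, Complex.exp_log hn]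
      push_cast
      rfl
  have h2 : (pg φ (fun n : ℕ => Complex.exp ((q : ℂ) * -Complex.log (n : ℂ)))) ^ q.den ∈ AC c :=
    kk_AC c h1
  rw [mem_AC] at h2
  exact h2.of_pow q.pos

/-- the germ of an entry of the exponential -/
theorem eN_mem {d : Type} [Fintype d] [DecidableEq d] (N : Matrix d d ℤ) {m : ℕ}
    (c : Fin m → GK φ)
    (h : N ≠ 0 → pg φ (fun n : ℕ => Complex.log (n : ℂ)) ∈ Set.range c) (i j : d) :
    pg φ (fun n : ℕ => (eN N (-Complex.log (n : ℂ)) : Matrix d d ℂ) i j) ∈ AC c := by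
  have e1 : (fun n : ℕ => (eN N (-Complex.log (n : ℂ)) : Matrix d d ℂ) i j) =
      ∑ t ∈ Finset.range (Fintype.card d), (fun n : ℕ => (((t.factorial : ℚ)⁻¹ : ℚ) : ℂ)) *
        ((fun n : ℕ => -Complex.log (n : ℂ)) ^ t * (fun _ : ℕ => (((N ^ t) i j : ℤ) : ℂ))) := by
    funext n
    rw [Finset.sum_apply]
    unfold eN
    rw [Matrix.sum_apply]
    refine Finset.sum_congr rfl fun t _ => ?_
    rw [Matrix.smul_apply, Matrix.map_apply, smul_eq_mul, Pi.mul_apply, Pi.mul_apply,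
      Pi.pow_apply, Algebra.smul_def, mul_assoc]
    rfl
  rw [e1, map_sum]
  refine sum_mem fun t _ => ?_
  rw [map_mul, map_mul, map_pow]
  have hr : ∀ q : ℚ, pg φ (fun _ => (q : ℂ)) ∈ AC c := fun q => kk_AC c (rat_mem q)
  refine mul_mem (hr _) ?_
  by_cases hN : N = 0
  · rcases Nat.eq_zero_or_pos t with h0 | h0
    · subst h0
      rw [pow_zero, one_mul]
      have := hr (((N ^ 0) i j : ℤ) : ℚ)
      simpa using this
    · have : (fun _ : ℕ => (((N ^ t) i j : ℤ) : ℂ)) = 0 := by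
        funext n
        rw [hN, zero_pow h0.ne']
        simp
      rw [this, map_zero, mul_zero]
      exact zero_mem _
  · refine mul_mem (pow_mem ?_ _) ?_
    · have e2 : (fun n : ℕ => -Complex.log (n : ℂ)) = -(fun n : ℕ => Complex.log (n : ℂ)) := rfl
      rw [e2, map_neg]
      exact neg_mem (adj_AC (subset_adjoin _ _ (h hN)))
    · have := hr (((N ^ t) i j : ℤ) : ℚ)
      simpa using this

/-- UAL: there are `m` germs over which `P R(n)⁻ᵀ` is algebraic -/
theorem ual {d : Type} [Fintype d] [DecidableEq d] (F : Family d) (P : Matrix d d ℂ) {δ : ℕ}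
    (c : Fin δ → ℂ)
    (hP : ∀ i j, IsAlgebraic (adjoin ℚ (Set.range c)) (P i j))
    {m : ℕ} (hm : δ + (if F.N = 0 then 0 else 1) ≤ m) :
    ∃ c' : Fin m → GK φ, ∀ i j, IsAlgebraic (adjoin (kk φ) (Set.range c'))
      (pg φ (fun n : ℕ => (P * ((F.R (n : ℂ))⁻¹)ᵀ) i j)) := by
  let c' : Fin m → GK φ := fun j =>
    if h : (j : ℕ) < δ then cst φ (c ⟨j, h⟩) else pg φ (fun n : ℕ => Complex.log (n : ℂ))
  have h1 : ∀ i, cst φ (c i) ∈ Set.range c' := by
    intro i
    refine ⟨⟨i, by have := i.2; omega⟩, ?_⟩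
    simp only [c']
    rw [dif_pos i.2]
  have h2 : F.N ≠ 0 → pg φ (fun n : ℕ => Complex.log (n : ℂ)) ∈ Set.range c' := by
    intro hN
    rw [if_neg hN] at hm
    refine ⟨⟨δ, by omega⟩, ?_⟩
    simp only [c']
    rw [dif_neg (lt_irrefl _)]
  refine ⟨c', fun i j => ?_⟩
  rw [← mem_AC]
  have hR : ∀ n : ℕ, (F.R (n : ℂ))⁻¹ =
      eN F.N (-Complex.log (n : ℂ)) * ed F.δ (-Complex.log (n : ℂ)) := by
    intro n
    have h3 : eN F.N (Complex.log n) * eN F.N (-Complex.log n) = 1 :=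
      MT100.H27.eN_mul_neg F.sys.nil _
    have h4 := MT100D.H64.ed_mul_neg F.δ (Complex.log n)
    refine inv_eq_right_inv ?_
    unfold Family.R
    calc ed F.δ (Complex.log n) * eN F.N (Complex.log n) *
          (eN F.N (-Complex.log n) * ed F.δ (-Complex.log n)) =
          ed F.δ (Complex.log n) * (eN F.N (Complex.log n) * eN F.N (-Complex.log n)) *
          ed F.δ (-Complex.log n) := by simp only [Matrix.mul_assoc]
      _ = 1 := by rw [h3, Matrix.mul_one, h4]
  have e1 : (fun n : ℕ => (P * ((F.R (n : ℂ))⁻¹)ᵀ) i j) =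
      ∑ l, (fun _ : ℕ => P i l) * ((fun n : ℕ => (eN F.N (-Complex.log (n : ℂ)) :
        Matrix d d ℂ) j l) * (fun n : ℕ => Complex.exp ((F.δ l : ℂ) * -Complex.log (n : ℂ)))) := by
    funext n
    rw [Finset.sum_apply, Matrix.mul_apply]
    refine Finset.sum_congr rfl fun l _ => ?_
    rw [Matrix.transpose_apply, hR]
    unfold ed
    rw [Matrix.mul_diagonal]
    rfl
  rw [e1, map_sum]
  refine sum_mem fun l _ => ?_
  rw [map_mul, map_mul]
  exact mul_mem (cst_alg c c' h1 (hP i l)) (mul_mem (eN_mem F.N c' h2 j l) (exp_mem c' (F.δ l)))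

end Pool.Agent.MTF.H74
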